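import Pool.Agent.Helper49.KR.St

set_option autoImplicit false

namespace Pool.Agent.Helper74.KR

open Finset Filter Topology Module
open Pool.Agent.Helper49.KX Pool.Agent.Helper49.KR

/-- the renumbering of the columns -/
def tau (a b : ℕ) : Fin (a + b) ≃ Fin (b + a) :=
  (finSumFinEquiv.symm.trans (Equiv.sumComm (Fin a) (Fin b))).trans finSumFinEquiv

theorem tau_l (a b : ℕ) (l : Fin a) : tau a b (Fin.castAdd b l) = Fin.natAdd b l := by
  simp [tau]

theorem tau_r (a b : ℕ) (l : Fin b) : tau a b (Fin.natAdd a l) = Fin.castAdd a l := by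
  simp [tau]

theorem app_tau {a b : ℕ} (κ0 : Fin a → Fin 4) (κ1 : Fin b → Fin 4) (l : Fin (a + b)) :
    Fin.append κ0 κ1 l = Fin.append κ1 κ0 (tau a b l) := by
  induction l using Fin.addCases with
  | left l => rw [tau_l, Fin.append_left, Fin.append_right]
  | right l => rw [tau_r, Fin.append_right, Fin.append_left]

theorem bsc_swp {R : Type} [Zero R] {a b : ℕ} (P : Matrix (Fin b) (Fin b) R) (Q : Matrix (Fin a) (Fin a) R) (i l : Fin (a + b)) :
    (bsc P Q).submatrix id (swp a b) i l = bsm P Q ((finCongr (Nat.add_comm b a)).symm i) (tau a b l) := by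
  change bsm P Q ((finCongr (Nat.add_comm b a)).symm i) ((finCongr (Nat.add_comm b a)).symm (swp a b l)) = _
  rfl

theorem cw_congr (θ : ℝ) (a b : ℕ) (g : FS X0) (s : ℝ) (i k : Fin (a + b)) :
    cw θ (a + b) g s i k = cw θ (b + a) g s ((finCongr (Nat.add_comm b a)).symm i) ((finCongr (Nat.add_comm b a)).symm k) := rfl

theorem mul_congr (θ : ℝ) (a b : ℕ) (g : FS X0) (s : ℝ) (P : Matrix (Fin b) (Fin b) ℂ) (Q : Matrix (Fin a) (Fin a) ℂ)
    (i l : Fin (a + b)) :
    (cw θ (a + b) g s * (bsc P Q).submatrix id (swp a b)) i l =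
      (cw θ (b + a) g s * bsm P Q) ((finCongr (Nat.add_comm b a)).symm i) (tau a b l) := by
  rw [Matrix.mul_apply, Matrix.mul_apply]
  rw [← Equiv.sum_comp (finCongr (Nat.add_comm b a)).symm]
  exact Finset.sum_congr rfl fun k _ => by rw [cw_congr, bsc_swp]

theorem Gm_app {R : Type} [CommRing R] {r : ℕ} (κ : Fin r → Fin 4) (u c η : Matrix (Fin r) (Fin r) R) (i l : Fin r) :
    Gm κ u c η i l = if κ l = 0 then (c * u) i l else if κ l = 1 then u i l - (c * u) i l else
      if κ l = 2 then (η * u) i l else u i l := rfl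

theorem hBLC : StBlc := by
  intro hB θ a b N N' g y κ0 κ1 u0 u1 s hg hy h0 h1
  obtain ⟨hS, hG⟩ := hB θ b a N N' g y κ1 κ0 u1 u0 s hg hy h1 h0
  constructor
  · intro i l
    rw [bsc_swp, app_tau]
    obtain ⟨h2, h3⟩ := hS ((finCongr (Nat.add_comm b a)).symm i) (tau a b l)
    refine ⟨fun h4 h5 => h2 h4 ?_, fun h4 h5 => h3 h4 ?_⟩
    all_goals
      simp only [SB, Finset.mem_filter, Finset.mem_univ, true_and, finCongr_symm, finCongr_apply, Fin.val_cast] at h5 ⊢
      omega
  · ext i l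
    rw [bsc_swp, ← hG, Gm_app, Gm_app, mul_congr, mul_congr, bsc_swp, app_tau]

end Pool.Agent.Helper74.KR
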