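import Pool.Agent.Helper49.KR.St

set_option autoImplicit false

namespace Pool.Agent.Helper74.KR

open Finset Filter Topology Module
open Pool.Agent.Helper49.KX Pool.Agent.Helper49.KR

section bsm
variable {R : Type} [Zero R] {a b : ℕ} (P : Matrix (Fin a) (Fin a) R) (Q : Matrix (Fin b) (Fin b) R)

theorem bsm00 (i k : Fin a) : bsm P Q (Fin.castAdd b i) (Fin.castAdd b k) = P i k := by
  simp [bsm, Matrix.reindex_apply, Matrix.submatrix_apply]

theorem bsm01 (i : Fin a) (k : Fin b) : bsm P Q (Fin.castAdd b i) (Fin.natAdd a k) = 0 := by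
  simp [bsm, Matrix.reindex_apply, Matrix.submatrix_apply]

theorem bsm10 (i : Fin b) (k : Fin a) : bsm P Q (Fin.natAdd a i) (Fin.castAdd b k) = 0 := by
  simp [bsm, Matrix.reindex_apply, Matrix.submatrix_apply]

theorem bsm11 (i k : Fin b) : bsm P Q (Fin.natAdd a i) (Fin.natAdd a k) = Q i k := by
  simp [bsm, Matrix.reindex_apply, Matrix.submatrix_apply]

end bsm

theorem mul_blk {a b : ℕ} (c : Matrix (Fin (a + b)) (Fin (a + b)) ℂ) (c0 u0 : Matrix (Fin a) (Fin a) ℂ)
    (c1 u1 : Matrix (Fin b) (Fin b) ℂ) (S0 : Finset (Fin a)) (S1 : Finset (Fin b))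
    (h00 : ∀ k i, c (Fin.castAdd b k) (Fin.castAdd b i) = c0 k i)
    (h11 : ∀ k i, c (Fin.natAdd a k) (Fin.natAdd a i) = c1 k i)
    (h01 : ∀ k, ∀ i, i ∉ S1 → c (Fin.castAdd b k) (Fin.natAdd a i) = 0)
    (h10 : ∀ k, ∀ i, i ∉ S0 → c (Fin.natAdd a k) (Fin.castAdd b i) = 0) :
    (∀ l : Fin a, (∀ i ∈ S0, u0 i l = 0) → ∀ k : Fin (a + b),
      (c * bsm u0 u1) k (Fin.castAdd b l) = bsm (c0 * u0) (c1 * u1) k (Fin.castAdd b l)) ∧
    (∀ l : Fin b, (∀ i ∈ S1, u1 i l = 0) → ∀ k : Fin (a + b),
      (c * bsm u0 u1) k (Fin.natAdd a l) = bsm (c0 * u0) (c1 * u1) k (Fin.natAdd a l)) := by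
  constructor
  · intro l hl k
    rw [Matrix.mul_apply, Fin.sum_univ_add]
    simp only [bsm00, bsm10, mul_zero, Finset.sum_const_zero, add_zero]
    induction k using Fin.addCases with
    | left k =>
      rw [bsm00, Matrix.mul_apply]
      exact Finset.sum_congr rfl fun i _ => by rw [h00]
    | right k =>
      rw [bsm10]
      refine Finset.sum_eq_zero fun i _ => ?_
      by_cases hi : i ∈ S0
      · rw [hl i hi, mul_zero]
      · rw [h10 k i hi, zero_mul]
  · intro l hl k
    rw [Matrix.mul_apply, Fin.sum_univ_add]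
    simp only [bsm01, bsm11, mul_zero, Finset.sum_const_zero, zero_add]
    induction k using Fin.addCases with
    | left k =>
      rw [bsm01]
      refine Finset.sum_eq_zero fun i _ => ?_
      by_cases hi : i ∈ S1
      · rw [hl i hi, mul_zero]
      · rw [h01 k i hi, zero_mul]
    | right k =>
      rw [bsm11, Matrix.mul_apply]
      exact Finset.sum_congr rfl fun i _ => by rw [h11]

theorem cw_blk (θ : ℝ) (a b N : ℕ) (g : FS X0) (s : ℝ) (hg : Deg g N) :
    (∀ k i, cw θ (a + b) g s (Fin.castAdd b k) (Fin.castAdd b i) = cw θ a g s k i) ∧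
    (∀ k i, cw θ (a + b) g s (Fin.natAdd a k) (Fin.natAdd a i) = cw θ b g (s + a * θ) k i) ∧
    (∀ k, ∀ i, i ∉ SB b N → cw θ (a + b) g s (Fin.castAdd b k) (Fin.natAdd a i) = 0) ∧
    (∀ k, ∀ i, i ∉ SB a N → cw θ (a + b) g s (Fin.natAdd a k) (Fin.castAdd b i) = 0) := by
  refine ⟨fun k i => rfl, fun k i => ?_, fun k i hi => ?_, fun k i hi => ?_⟩
  · simp only [cw, Fin.val_natAdd]
    have h1 : (((a + (k : ℕ) : ℕ) : ℤ) - ((a + (i : ℕ) : ℕ) : ℤ)) = ((k : ℕ) : ℤ) - ((i : ℕ) : ℤ) := by
      push_cast
      ring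
    rw [h1]
    congr 2
    push_cast
    ring
  · simp only [cw, Fin.val_natAdd, Fin.val_castAdd]
    have h2 : g (((k : ℕ) : ℤ) - ((a + (i : ℕ) : ℕ) : ℤ)) = 0 := by
      apply hg
      simp only [SB, Finset.mem_filter, Finset.mem_univ, true_and, not_or, not_lt, not_le] at hi
      have h3 := k.isLt
      rw [abs_of_nonpos (by push_cast; omega)]
      push_cast
      omega
    rw [h2]
    rfl
  · simp only [cw, Fin.val_natAdd, Fin.val_castAdd]
    have h2 : g (((a + (k : ℕ) : ℕ) : ℤ) - ((i : ℕ) : ℤ)) = 0 := by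
      apply hg
      simp only [SB, Finset.mem_filter, Finset.mem_univ, true_and, not_or, not_lt, not_le] at hi
      have h3 := i.isLt
      rw [abs_of_nonneg (by push_cast; omega)]
      push_cast
      omega
    rw [h2]
    rfl

theorem Gm_apply {R : Type} [CommRing R] {r : ℕ} (κ : Fin r → Fin 4) (u c η : Matrix (Fin r) (Fin r) R) (i l : Fin r) :
    Gm κ u c η i l = if κ l = 0 then (c * u) i l else if κ l = 1 then u i l - (c * u) i l else
      if κ l = 2 then (η * u) i l else u i l := rfl

theorem hBLK : StBlk := by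
  intro θ a b N N' g y κ0 κ1 u0 u1 s hg hy h0 h1
  constructor
  · intro i l
    induction l using Fin.addCases with
    | left l =>
      rw [Fin.append_left]
      induction i using Fin.addCases with
      | left i =>
        rw [bsm00]
        refine ⟨fun h2 h3 => (h0 i l).1 h2 ?_, fun h2 h3 => (h0 i l).2 h2 ?_⟩
        all_goals
          simp only [SB, Finset.mem_filter, Finset.mem_univ, true_and, Fin.val_castAdd] at h3 ⊢
          omega
      | right i =>
        rw [bsm10]
        exact ⟨fun _ _ => rfl, fun _ _ => rfl⟩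
    | right l =>
      rw [Fin.append_right]
      induction i using Fin.addCases with
      | left i =>
        rw [bsm01]
        exact ⟨fun _ _ => rfl, fun _ _ => rfl⟩
      | right i =>
        rw [bsm11]
        refine ⟨fun h2 h3 => (h1 i l).1 h2 ?_, fun h2 h3 => (h1 i l).2 h2 ?_⟩
        all_goals
          simp only [SB, Finset.mem_filter, Finset.mem_univ, true_and, Fin.val_natAdd] at h3 ⊢
          omega
  · obtain ⟨e1, e2, e3, e4⟩ := cw_blk θ a b N g s hg
    obtain ⟨f1, f2, f3, f4⟩ := cw_blk θ a b N' y s hy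
    have m1 := mul_blk (cw θ (a + b) g s) (cw θ a g s) u0 (cw θ b g (s + a * θ)) u1 (SB a N) (SB b N) e1 e2 e3 e4
    have m2 := mul_blk (cw θ (a + b) y s) (cw θ a y s) u0 (cw θ b y (s + a * θ)) u1 (SB a N') (SB b N') f1 f2 f3 f4
    ext k l
    induction l using Fin.addCases with
    | left l =>
      rw [Gm_apply, Fin.append_left]
      by_cases t0 : κ0 l = 0
      · rw [if_pos t0, m1.1 l (fun i hi => (h0 i l).1 (Or.inl t0) hi) k]
        induction k using Fin.addCases with
        | left k => rw [bsm00, bsm00, Gm_apply, if_pos t0]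
        | right k => rw [bsm10, bsm10]
      rw [if_neg t0]
      by_cases t1 : κ0 l = 1
      · rw [if_pos t1, m1.1 l (fun i hi => (h0 i l).1 (Or.inr t1) hi) k]
        induction k using Fin.addCases with
        | left k => rw [bsm00, bsm00, bsm00, Gm_apply, if_neg t0, if_pos t1]
        | right k => rw [bsm10, bsm10, bsm10, sub_zero]
      rw [if_neg t1]
      by_cases t2 : κ0 l = 2
      · rw [if_pos t2, m2.1 l (fun i hi => (h0 i l).2 t2 hi) k]
        induction k using Fin.addCases with
        | left k => rw [bsm00, bsm00, Gm_apply, if_neg t0, if_neg t1, if_pos t2]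
        | right k => rw [bsm10, bsm10]
      rw [if_neg t2]
      induction k using Fin.addCases with
      | left k => rw [bsm00, bsm00, Gm_apply, if_neg t0, if_neg t1, if_neg t2]
      | right k => rw [bsm10, bsm10]
    | right l =>
      rw [Gm_apply, Fin.append_right]
      by_cases t0 : κ1 l = 0
      · rw [if_pos t0, m1.2 l (fun i hi => (h1 i l).1 (Or.inl t0) hi) k]
        induction k using Fin.addCases with
        | left k => rw [bsm01, bsm01]
        | right k => rw [bsm11, bsm11, Gm_apply, if_pos t0]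
      rw [if_neg t0]
      by_cases t1 : κ1 l = 1
      · rw [if_pos t1, m1.2 l (fun i hi => (h1 i l).1 (Or.inr t1) hi) k]
        induction k using Fin.addCases with
        | left k => rw [bsm01, bsm01, bsm01, sub_zero]
        | right k => rw [bsm11, bsm11, bsm11, Gm_apply, if_neg t0, if_pos t1]
      rw [if_neg t1]
      by_cases t2 : κ1 l = 2
      · rw [if_pos t2, m2.2 l (fun i hi => (h1 i l).2 t2 hi) k]
        induction k using Fin.addCases with
        | left k => rw [bsm01, bsm01]
        | right k => rw [bsm11, bsm11, Gm_apply, if_neg t0, if_neg t1, if_pos t2]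
      rw [if_neg t2]
      induction k using Fin.addCases with
      | left k => rw [bsm01, bsm01]
      | right k => rw [bsm11, bsm11, Gm_apply, if_neg t0, if_neg t1, if_neg t2]

end Pool.Agent.Helper74.KR
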