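import Pool.Agent.Helper49.KR.St

set_option autoImplicit false

namespace Pool.Agent.Helper74.KR

open Finset Filter Topology Module
open Pool.Agent.Helper49.KX Pool.Agent.Helper49.KR

theorem cw_int (θ : ℝ) (r : ℕ) (g : FS X0) (s : ℝ) (n : ℤ) : cw θ r g (s + n) = cw θ r g s := by
  funext k i
  simp only [cw]
  congr 1
  have h1 : s + (n : ℝ) + ((k : ℕ) : ℝ) * θ = (s + ((k : ℕ) : ℝ) * θ) + (n : ℝ) := by ring
  rw [h1, AddCircle.coe_add]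
  have h2 : ((n : ℝ) : X0) = 0 := by
    rw [AddCircle.coe_eq_zero_iff]
    exact ⟨n, by simp⟩
  rw [h2, add_zero]

theorem det_ne {r : ℕ} (M : Matrix (Fin r) (Fin r) ℂ) : IsUnit M ↔ M.det ≠ 0 := by
  rw [Matrix.isUnit_iff_isUnit_det, isUnit_iff_ne_zero]

theorem hTRI : StTri := by
  intro hPth hPta hPcn hFmp hBlk hBlc hBsm θ δ1 δ2 q1 q2 hR g y N N' hg hy κ0 κ1 σ0 σ1 hI0 hI1 hu0 hu1
  obtain ⟨v00, m00, g00⟩ := hu0 0
  obtain ⟨v01, m01, g01⟩ := hu0 δ2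
  obtain ⟨v10, m10, g10⟩ := hu1 (-δ1)
  obtain ⟨v11, m11, g11⟩ := hu1 0
  have hδ1 := hR.pos1
  have hδ2 := hR.pos2
  obtain ⟨n1, e1⟩ := hR.e1
  obtain ⟨n2, e2⟩ := hR.e2
  have P0 := hFmp θ q1 g y κ0 (US q1 (SB q1 N) (SB q1 N') κ0)
  have P1 := hFmp θ q2 g y κ1 (US q2 (SB q2 N) (SB q2 N') κ1)
  have P2 := hFmp θ (q1 + q2) g y (Fin.append κ0 κ1) (US (q1 + q2) (SB (q1 + q2) N) (SB (q1 + q2) N') (Fin.append κ0 κ1))
  obtain ⟨u0, τ0, t0, c0, k0, l0, r0⟩ := hPth hPta hPcn _ _ P0 0 δ2 hδ2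
    (fun s _ _ => by
      obtain ⟨u, hu, hu'⟩ := hu0 s
      exact ⟨⟨u, hu⟩, (det_ne _).1 hu'⟩) ⟨v00, m00⟩ ⟨v01, m01⟩ ((det_ne _).1 g00) ((det_ne _).1 g01)
  obtain ⟨u1, τ1, t1, c1, k1, l1, r1⟩ := hPth hPta hPcn _ _ P1 (-δ1) 0 (by linarith)
    (fun s _ _ => by
      obtain ⟨u, hu, hu'⟩ := hu1 s
      exact ⟨⟨u, hu⟩, (det_ne _).1 hu'⟩) ⟨v10, m10⟩ ⟨v11, m11⟩ ((det_ne _).1 g10) ((det_ne _).1 g11)
  obtain ⟨mp, gp⟩ := hBlk θ q1 q2 N N' g y κ0 κ1 v00 v10 0 hg hy m00 m10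
  obtain ⟨mm, gm⟩ := hBlc hBlk θ q1 q2 N N' g y κ0 κ1 v01 v11 0 hg hy m01 m11
  have up : IsUnit (Gm (Fin.append κ0 κ1) (bsm v00 v10) (cw θ (q1 + q2) g 0) (cw θ (q1 + q2) y 0)) := by
    rw [gp, zero_add, e1, cw_int, cw_int]
    exact ((((hBsm q1 q2).1 _ 0 _ 0).2.2) g00 g10).1
  have um : IsUnit (Gm (Fin.append κ0 κ1) ((bsc v11 v01).submatrix id (swp q1 q2)) (cw θ (q1 + q2) g 0)
      (cw θ (q1 + q2) y 0)) := by
    rw [gm, zero_add, e2, cw_int, cw_int]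
    exact ((hBsm q1 q2).2.2 _ 0 _ 0 g01 g11).1
  obtain ⟨ε0, e0, h2⟩ := hPta hPcn _ _ P2 0 ⟨_, mm⟩ ⟨_, mp⟩ ((det_ne _).1 um) ((det_ne _).1 up)
  obtain ⟨ε, ε1, ε2, ε3, ε4, ε5, ε6⟩ : ∃ ε : ℝ, 0 < ε ∧ ε ≤ ε0 ∧ ε ≤ τ0 ∧ ε ≤ τ1 ∧ 4 * ε < δ1 ∧ 4 * ε < δ2 := by
    refine ⟨min (min ε0 (min τ0 τ1)) (min (δ1 / 8) (δ2 / 8)), ?_, ?_, ?_, ?_, ?_, ?_⟩
    · have : 0 < δ1 / 8 := by linarith
      have : 0 < δ2 / 8 := by linarith
      positivity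
    · exact (min_le_left _ _).trans (min_le_left _ _)
    · exact (min_le_left _ _).trans ((min_le_right _ _).trans (min_le_left _ _))
    · exact (min_le_left _ _).trans ((min_le_right _ _).trans (min_le_right _ _))
    · have := (min_le_right (min ε0 (min τ0 τ1)) (min (δ1 / 8) (δ2 / 8))).trans (min_le_left _ _)
      linarith
    · have := (min_le_right (min ε0 (min τ0 τ1)) (min (δ1 / 8) (δ2 / 8))).trans (min_le_right _ _)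
      linarith
  obtain ⟨u2, c2, k2, l2, r2⟩ := h2 ε ε1 ε2
  refine ⟨ε, fun s => u0 s, fun s => u1 s, fun s => u2 s, ε1, ε5, ε6, ?_⟩
  exact
    { i0 := hI0
      i1 := hI1
      c0 := continuous_subtype_val.comp c0
      c1 := continuous_subtype_val.comp c1
      c2 := continuous_subtype_val.comp c2
      m0 := fun s => (u0 s).2
      m1 := fun s => (u1 s).2
      m2 := fun s => (u2 s).2
      g0 := fun s h3 h4 => (det_ne _).2 (k0 s h3 h4)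
      g1 := fun s h3 h4 => (det_ne _).2 (k1 s h3 h4)
      g2 := fun s h3 h4 => (det_ne _).2 (k2 s (by rw [sub_zero, abs_le]; exact ⟨h3, h4⟩))
      mp := fun s h3 h4 => by
        rw [r2 s (by linarith), l0 s (by linarith), l1 (s - δ1) (by linarith)]
      mm := fun s h3 h4 => by
        rw [l2 s (by linarith), r1 s (by linarith), r0 (s + δ2) (by linarith)] }

end Pool.Agent.Helper74.KR
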